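import Pool.Agent.Helper42.DB.Goals2

set_option autoImplicit false

/-!
# Packet DECEX (MP_48f005_an): existence of decompositions into rich loops and gaps
-/

namespace Pool.Agent.Helper42.DB.PkDECEX

open Pool.Agent.Helper42.DB

lemma sh_zero {α : Type} (w : ℕ → α) : sh 0 w = w := by
  funext k; simp [sh]

lemma sh_sh {α : Type} (a b : ℕ) (w : ℕ → α) : sh a (sh b w) = sh (b + a) w := by
  funext k; simp only [sh]; congr 1; omega

lemma Dec.ext' {α : Type} (L : Lang α) (Rh : ℕ → (ℕ → α) → Prop) {q N' R d : ℕ}
    {w : ℕ → α} (h : Dec L.P Rh q N' R (sh d w)) (hP : L.P (d + N') w) :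
    Dec L.P Rh q (d + N') R w := by
  generalize hw : sh d w = w' at h
  cases h with
  | nil N w' _ => exact Dec.nil _ _ hP
  | cons q g ℓ N R w' h1 h2 h3 =>
    subst hw
    rw [sh_sh] at h2 h3
    have hP' : L.P (d + g) w := by
      have := L.sub (d + (g + ℓ + N)) 0 (d + g) w (by omega) hP
      rwa [sh_zero] at this
    have h3' : Dec L.P Rh q N R (sh (d + g + ℓ) w) := by
      rw [show d + g + ℓ = d + (g + ℓ) by omega]; exact h3
    have := Dec.cons (P := L.P) (Rh := Rh) q (d + g) ℓ N R w hP' h2 h3'
    rw [show d + (g + ℓ + N) = d + g + ℓ + N by omega]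
    exact this

theorem thm : G_DECEX := by
  intro α L Rh N W C k cls G s hP hs hG hk hpair
  induction k generalizing s G with
  | zero =>
    have hGe : G = ∅ := by
      have h0 : (G.image cls).card = 0 := by omega
      rw [Finset.card_eq_zero, Finset.image_eq_empty] at h0
      exact h0
    subst hGe
    refine ⟨0, 0, le_refl _, by omega, by simp, ?_⟩
    exact Dec.nil _ _ (L.sub N s (N - s) W (by omega) hP)
  | succ k ih =>
    rcases G.eq_empty_or_nonempty with hGe | hne
    · subst hGe
      refine ⟨0, 0, by omega, by omega, by simp, ?_⟩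
      exact Dec.nil _ _ (L.sub N s (N - s) W (by omega) hP)
    · -- first element
      obtain ⟨t1, ht1, hmin⟩ : ∃ t1 ∈ G, ∀ t ∈ G, t1 ≤ t :=
        ⟨G.min' hne, G.min'_mem hne, fun t ht => G.min'_le t ht⟩
      have hcne : (G.filter (fun t => cls t = cls t1)).Nonempty :=
        ⟨t1, Finset.mem_filter.2 ⟨ht1, rfl⟩⟩
      obtain ⟨t2, ht2, hc2, hmax⟩ : ∃ t2 ∈ G, cls t2 = cls t1 ∧
          ∀ t ∈ G, cls t = cls t1 → t ≤ t2 := by
        refine ⟨(G.filter (fun t => cls t = cls t1)).max' hcne, ?_, ?_, ?_⟩
        · exact (Finset.mem_filter.1 (Finset.max'_mem _ hcne)).1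
        · exact (Finset.mem_filter.1 (Finset.max'_mem _ hcne)).2
        · intro t ht hct
          exact Finset.le_max' _ _ (Finset.mem_filter.2 ⟨ht, hct⟩)
      have h12 : t1 ≤ t2 := hmin t2 ht2
      have hG' : ∀ t ∈ G.filter (fun t => t2 < t), t2 ≤ t ∧ t ≤ N := by
        intro t ht
        rw [Finset.mem_filter] at ht
        exact ⟨ht.2.le, (hG t ht.1).2⟩
      have himg : ((G.filter (fun t => t2 < t)).image cls).card ≤ k := by
        have hsub : (G.filter (fun t => t2 < t)).image cls ⊆ (G.image cls).erase (cls t1) := by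
          intro c hc
          rw [Finset.mem_image] at hc
          obtain ⟨t, ht, rfl⟩ := hc
          rw [Finset.mem_filter] at ht
          rw [Finset.mem_erase]
          refine ⟨?_, Finset.mem_image_of_mem _ ht.1⟩
          intro hcc
          have := hmax t ht.1 hcc
          omega
        have h1 := Finset.card_le_card hsub
        have h2 : ((G.image cls).erase (cls t1)).card = (G.image cls).card - 1 :=
          Finset.card_erase_of_mem (Finset.mem_image_of_mem _ ht1)
        omega
      have hpair' : ∀ t ∈ G.filter (fun t => t2 < t), ∀ t' ∈ G.filter (fun t => t2 < t),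
          t ≤ t' → cls t = cls t' → Rh (t' - t) (sh t W) ∨
          ((G.filter (fun t => t2 < t)).filter (fun x => t ≤ x ∧ x ≤ t')).card ≤ C := by
        intro t ht t' ht' htt hcc
        rw [Finset.mem_filter] at ht ht'
        rcases hpair t ht.1 t' ht'.1 htt hcc with h | h
        · exact Or.inl h
        · right
          refine le_trans (Finset.card_le_card ?_) h
          intro x hx
          rw [Finset.mem_filter, Finset.mem_filter] at hx
          exact Finset.mem_filter.2 ⟨hx.1.1, hx.2⟩
      obtain ⟨q', R', hq', hR', hcard', hdec'⟩ :=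
        ih (G.filter (fun t => t2 < t)) t2 (hG t2 ht2).2 hG' himg hpair'
      have hsplit : G.card = (G.filter (fun x => t1 ≤ x ∧ x ≤ t2)).card +
          (G.filter (fun t => t2 < t)).card := by
        have h1 : G.filter (fun x => ¬ (t2 < x)) = G.filter (fun x => t1 ≤ x ∧ x ≤ t2) := by
          apply Finset.filter_congr
          intro x hx
          have := hmin x hx
          constructor
          · intro h; exact ⟨this, by omega⟩
          · intro h; omega
        have h2 := Finset.card_filter_add_card_filter_not (s := G) (fun x => t2 < x)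
        rw [h1] at h2
        omega
      have hst1 : s ≤ t1 := (hG t1 ht1).1
      have ht2N : t2 ≤ N := (hG t2 ht2).2
      have hmul : (k + 1) * (C + 1) = k * (C + 1) + (C + 1) := by ring
      rcases hpair t1 ht1 t2 ht2 h12 hc2.symm with hr | hr
      · refine ⟨q' + 1, (t2 - t1) + R', by omega, by omega, ?_, ?_⟩
        · have hle : (G.filter (fun x => t1 ≤ x ∧ x ≤ t2)).card ≤ t2 + 1 - t1 := by
            have : G.filter (fun x => t1 ≤ x ∧ x ≤ t2) ⊆ Finset.Icc t1 t2 := by
              intro x hx
              rw [Finset.mem_filter] at hx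
              exact Finset.mem_Icc.2 hx.2
            have := Finset.card_le_card this
            rwa [Nat.card_Icc] at this
          omega
        · have hP1 : L.P (t1 - s) (sh s W) := L.sub N s (t1 - s) W (by omega) hP
          have h2 : Rh (t2 - t1) (sh (t1 - s) (sh s W)) := by
            rw [sh_sh, show s + (t1 - s) = t1 by omega]; exact hr
          have h3 : Dec L.P Rh q' (N - t2) R' (sh ((t1 - s) + (t2 - t1)) (sh s W)) := by
            rw [sh_sh, show s + ((t1 - s) + (t2 - t1)) = t2 by omega]; exact hdec'
          have := Dec.cons (P := L.P) (Rh := Rh) q' (t1 - s) (t2 - t1) (N - t2) R' (sh s W)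
            hP1 h2 h3
          rw [show N - s = (t1 - s) + (t2 - t1) + (N - t2) by omega]
          exact this
      · refine ⟨q', R', by omega, by omega, by omega, ?_⟩
        have hP1 : L.P ((t2 - s) + (N - t2)) (sh s W) :=
          L.sub N s _ W (by omega) hP
        have hd : Dec L.P Rh q' (N - t2) R' (sh (t2 - s) (sh s W)) := by
          rw [sh_sh, show s + (t2 - s) = t2 by omega]; exact hdec'
        have := Dec.ext' L Rh hd hP1
        rw [show N - s = (t2 - s) + (N - t2) by omega]
        exact this

end Pool.Agent.Helper42.DB.PkDECEX
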